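import Pool.Agent.H630Z.F
import Pool.Agent.H630Z.E5

/-!
# MP_4d57dd_an, Q1: zeros of the coefficients of `N(t,z) / (Q(t) + z t ^ r)` outside `(0, ∞)`

The coefficients `P_m` are the elements of the field `RatFunc ℝ` of rational functions in `z` with
`N(t,z) / (Q(t) + z t ^ r) = ∑ P_m(z) t ^ m` in the ring of power series in `t` over this field.
`N : ℝ[X][X]` is a polynomial in `t` with coefficients in `ℝ[z]`.
-/

set_option autoImplicit false

open Polynomial

namespace Pool.Agent.Results.MP_4d57dd_an.NonpositiveZeros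

/-- `P_m`, the coefficient of `t ^ m` of `N(t,z) / (Q(t) + z t ^ r)`, as a rational function of `z` -/
noncomputable def coeffP (Q : ℝ[X]) (r : ℕ) (N : ℝ[X][X]) (m : ℕ) : RatFunc ℝ :=
  PowerSeries.coeff m
    (((N.map (algebraMap ℝ[X] (RatFunc ℝ)) : (RatFunc ℝ)[X]) : PowerSeries (RatFunc ℝ)) *
      ((Q.map (algebraMap ℝ (RatFunc ℝ)) + C RatFunc.X * X ^ r : (RatFunc ℝ)[X]) :
        PowerSeries (RatFunc ℝ))⁻¹)

open Classical in
/-- the number of complex zeros of `A`, with multiplicity, that are not in `(0, ∞)` -/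
noncomputable def zerosOff (A : ℝ[X]) : ℕ :=
  (((A.map (algebraMap ℝ ℂ)).roots).filter (fun w => ¬ ∃ x : ℝ, 0 < x ∧ w = (x : ℂ))).card

/-- **Theorem.**  Let `Q` be a real polynomial with `Q(0) > 0` all of whose complex zeros are
positive reals, `r ≥ 0`, and `N(t,z)` a real polynomial with `deg_t N < max (deg Q) r`.  If `Q` is
not constant, then there is a constant `C` such that every `P_m` that is not identically zero has
fewer than `C` zeros (zeros of the numerator in lowest terms, counted with multiplicity) outside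
`(0, ∞)`.  If `Q` is constant and `N` is not zero, then there is no such constant. -/
theorem result (Q : ℝ[X]) (hQ0 : 0 < Q.eval 0)
    (hQ : ∀ w : ℂ, aeval w Q = 0 → ∃ x : ℝ, 0 < x ∧ w = (x : ℂ))
    (r : ℕ) (N : ℝ[X][X]) (hN : N.degree < ((max Q.natDegree r : ℕ) : WithBot ℕ)) :
    (1 ≤ Q.natDegree →
      ∃ C : ℕ, ∀ m : ℕ, coeffP Q r N m ≠ 0 → zerosOff (coeffP Q r N m).num < C) ∧
    (Q.natDegree = 0 → N ≠ 0 →
      ∀ C : ℕ, ∃ m : ℕ, coeffP Q r N m ≠ 0 ∧ C ≤ zerosOff (coeffP Q r N m).num) := by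
  refine ⟨fun hn => Pool.Agent.H630Z.main Q hQ0 hQ hn r N hN, fun hn hN0 K => ?_⟩
  have hQc : Q = C (Q.coeff 0) := eq_C_of_natDegree_eq_zero hn
  have hc : 0 < Q.coeff 0 := by
    rw [hQc] at hQ0
    simpa using hQ0
  have hdeg : N.natDegree < r := by
    rw [degree_eq_natDegree hN0, Nat.cast_lt, hn] at hN
    simpa using hN
  have h := Pool.Agent.H630Z.const_case (Q.coeff 0) hc r N hN0 hdeg K
  rw [← hQc] at h
  exact h

end Pool.Agent.Results.MP_4d57dd_an.NonpositiveZeros
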